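import Mathlib

/-!
Lower bound for the `ℓ₁`-norm of the character sums of a finite set over an elementary abelian
2-group: `∑_{x ≠ 0} |∑_{a ∈ A} e x a| ≥ ∑_{j=1}^n 2^(n-j) dist (|A|, 2^j ℤ)`.
-/

namespace Pool.Agent.Q162.Syl

open Finset

/-- distance of `a` to the nearest multiple of `M` -/
def T (M a : ℕ) : ℤ := min ((a % M : ℕ) : ℤ) ((M : ℤ) - ((a % M : ℕ) : ℤ))

lemma decomp (M a : ℕ) : (a : ℤ) = M * ((a / M : ℕ) : ℤ) + ((a % M : ℕ) : ℤ) := by
  have := Nat.div_add_mod a M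
  exact_mod_cast this.symm

lemma T_le {M : ℕ} (hM : 0 < M) (a : ℕ) (k : ℤ) : T M a ≤ |(a : ℤ) - M * k| := by
  have h1 := decomp M a
  have h2 : ((a % M : ℕ) : ℤ) < M := by exact_mod_cast Nat.mod_lt a hM
  have h3 : (0 : ℤ) ≤ ((a % M : ℕ) : ℤ) := by positivity
  have hM' : (0 : ℤ) < M := by exact_mod_cast hM
  have h4 : (a : ℤ) - M * k = M * (((a / M : ℕ) : ℤ) - k) + ((a % M : ℕ) : ℤ) := by
    rw [h1]
    have : ((M * ((a / M : ℕ) : ℤ) + ((a % M : ℕ) : ℤ)) : ℤ) = a := h1.symm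
    push_cast
    ring
  rw [h4]
  unfold T
  rcases le_or_gt 0 (((a / M : ℕ) : ℤ) - k) with h | h
  · refine (min_le_left _ _).trans ?_
    refine le_trans ?_ (le_abs_self _)
    nlinarith
  · refine (min_le_right _ _).trans ?_
    refine le_trans ?_ (neg_le_abs _)
    have h5 : (((a / M : ℕ) : ℤ) - k) ≤ -1 := by omega
    nlinarith

lemma T_att {M : ℕ} (hM : 0 < M) (a : ℕ) : ∃ k : ℤ, T M a = |(a : ℤ) - M * k| := by
  have h1 := decomp M a
  have h2 : ((a % M : ℕ) : ℤ) < M := by exact_mod_cast Nat.mod_lt a hM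
  have h3 : (0 : ℤ) ≤ ((a % M : ℕ) : ℤ) := by positivity
  unfold T
  rcases le_total ((a % M : ℕ) : ℤ) ((M : ℤ) - ((a % M : ℕ) : ℤ)) with h | h
  · refine ⟨((a / M : ℕ) : ℤ), ?_⟩
    rw [min_eq_left h]
    have : (a : ℤ) - M * ((a / M : ℕ) : ℤ) = ((a % M : ℕ) : ℤ) := by linarith
    rw [this, abs_of_nonneg h3]
  · refine ⟨((a / M : ℕ) : ℤ) + 1, ?_⟩
    rw [min_eq_right h]
    have : (a : ℤ) - M * (((a / M : ℕ) : ℤ) + 1) = ((a % M : ℕ) : ℤ) - M := by linarith
    rw [this, abs_of_nonpos (by linarith)]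
    ring

lemma T_half (M a : ℕ) : 2 * T M a ≤ M := by
  unfold T
  rcases le_total ((a % M : ℕ) : ℤ) ((M : ℤ) - ((a % M : ℕ) : ℤ)) with h | h
  · rw [min_eq_left h]; linarith
  · rw [min_eq_right h]; linarith

lemma T_two {M : ℕ} (hM : 0 < M) (hev : M % 2 = 0) (a₀ a₁ : ℕ) :
    T (2 * M) (a₀ + a₁) ≤ T M a₀ + T M a₁ +
      (|(a₀ : ℤ) - a₁| - (((a₀ + a₁) % 2 : ℕ) : ℤ)) := by
  obtain ⟨p, hp⟩ := T_att hM a₀
  obtain ⟨q, hq⟩ := T_att hM a₁
  have hp2 := T_half M a₀
  have hq2 := T_half M a₁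
  set u : ℤ := (a₀ : ℤ) - M * p with hu
  set w : ℤ := (a₁ : ℤ) - M * q with hw
  have h2M : 0 < 2 * M := by omega
  have hMz : (0 : ℤ) < M := by exact_mod_cast hM
  obtain ⟨m, hm⟩ : ∃ m : ℤ, (M : ℤ) = 2 * m := ⟨((M / 2 : ℕ) : ℤ), by omega⟩
  have hsum : ((a₀ + a₁ : ℕ) : ℤ) = M * (p + q) + (u + w) := by
    rw [hu, hw]; push_cast; ring
  have hdiff : (a₀ : ℤ) - a₁ = M * (p - q) + (u - w) := by
    rw [hu, hw]; ring
  have hparity : (0 : ℤ) ≤ |(a₀ : ℤ) - a₁| - (((a₀ + a₁) % 2 : ℕ) : ℤ) := by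
    rcases abs_cases ((a₀ : ℤ) - a₁) with ⟨h1, _⟩ | ⟨h1, _⟩ <;> omega
  rcases Int.even_or_odd' (p + q) with ⟨k, hk | hk⟩
  · have h1 := T_le h2M (a₀ + a₁) k
    have h2 : ((a₀ + a₁ : ℕ) : ℤ) - ((2 * M : ℕ) : ℤ) * k = u + w := by
      rw [hsum, hk]; push_cast; ring
    rw [h2] at h1
    have h3 := abs_add_le u w
    linarith
  · have h1 := T_le h2M (a₀ + a₁) k
    have h1' := T_le h2M (a₀ + a₁) (k + 1)
    have h2 : ((a₀ + a₁ : ℕ) : ℤ) - ((2 * M : ℕ) : ℤ) * k = (u + w) + M := by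
      rw [hsum, hk]; push_cast; ring
    have h2' : ((a₀ + a₁ : ℕ) : ℤ) - ((2 * M : ℕ) : ℤ) * (k + 1) = (u + w) - M := by
      rw [hsum, hk]; push_cast; ring
    rw [h2] at h1
    rw [h2'] at h1'
    have hpq : p - q = 2 * (k - q) + 1 := by linarith
    have hbig : (M : ℤ) ≤ |(M : ℤ) * (p - q)| := by
      rw [abs_mul, abs_of_pos hMz]
      have : 1 ≤ |p - q| := by
        rw [hpq]
        rcases abs_cases (2 * (k - q) + 1) with ⟨h1, _⟩ | ⟨h1, _⟩ <;> omega
      nlinarith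
    have hd : (M : ℤ) - |u - w| ≤ |(a₀ : ℤ) - a₁| := by
      rw [hdiff]
      have h5 := abs_sub_abs_le_abs_sub ((M : ℤ) * (p - q)) (-(u - w))
      rw [abs_neg, sub_neg_eq_add] at h5
      linarith
    have heps : (((a₀ + a₁) % 2 : ℕ) : ℤ) ≤ |u + w| := by
      have hmk : (M : ℤ) * (p + q) = 2 * (m * (p + q)) := by rw [hm]; ring
      rcases abs_cases (u + w) with ⟨h6, _⟩ | ⟨h6, _⟩ <;> omega
    have hT : T (2 * M) (a₀ + a₁) ≤ M - |u + w| := by
      rcases abs_cases (u + w) with ⟨h6, h7⟩ | ⟨h6, h7⟩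
      · have : |u + w - M| = M - (u + w) := by
          rw [abs_of_nonpos]
          · ring
          · have := abs_add_le u w
            linarith
        linarith
      · have : |u + w + M| = (u + w) + M := by
          rw [abs_of_nonneg]
          have := abs_add_le u w
          linarith
        linarith
    have h8 : |u - w| ≤ |u| + |w| := by
      have := abs_add_le u (-w)
      rw [abs_neg] at this
      have e : u + -w = u - w := by ring
      rwa [e] at this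
    linarith

/-- the extremal value -/
def f (n a : ℕ) : ℤ := ∑ j ∈ range n, 2 ^ (n - 1 - j) * T (2 ^ (j + 1)) a

lemma f_succ (n a : ℕ) :
    f (n + 1) a = (∑ j ∈ range n, 2 ^ (n - 1 - j) * T (2 ^ (j + 2)) a)
      + 2 ^ n * ((a % 2 : ℕ) : ℤ) := by
  unfold f
  rw [Finset.sum_range_succ']
  congr 1
  · apply Finset.sum_congr rfl
    intro j hj
    have := Finset.mem_range.1 hj
    have h1 : n + 1 - 1 - (j + 1) = n - 1 - j := by omega
    rw [h1]
  · have h1 : n + 1 - 1 - 0 = n := by omega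
    rw [h1]
    congr 1
    unfold T
    have h2 : a % 2 < 2 := Nat.mod_lt _ (by norm_num)
    norm_num
    omega

lemma f_key (n a₀ a₁ : ℕ) :
    f (n + 1) (a₀ + a₁) ≤ f n a₀ + f n a₁ + 2 ^ n * |(a₀ : ℤ) - a₁| := by
  rw [f_succ]
  set ε : ℤ := (((a₀ + a₁) % 2 : ℕ) : ℤ) with hε
  set δ : ℤ := |(a₀ : ℤ) - a₁| with hδ
  have hεδ : ε ≤ δ := by
    rw [hε, hδ]
    rcases abs_cases ((a₀ : ℤ) - a₁) with ⟨h1, _⟩ | ⟨h1, _⟩ <;> omega
  have h1 : ∑ j ∈ range n, (2 : ℤ) ^ (n - 1 - j) * T (2 ^ (j + 2)) (a₀ + a₁) ≤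
      ∑ j ∈ range n, ((2 : ℤ) ^ (n - 1 - j) * T (2 ^ (j + 1)) a₀
        + 2 ^ (n - 1 - j) * T (2 ^ (j + 1)) a₁ + 2 ^ (n - 1 - j) * (δ - ε)) := by
    apply Finset.sum_le_sum
    intro j _
    have h2 := T_two (M := 2 ^ (j + 1)) (by positivity) (by rw [pow_succ]; omega) a₀ a₁
    have h3 : 2 * 2 ^ (j + 1) = 2 ^ (j + 2) := by ring
    rw [h3] at h2
    have h4 : (0 : ℤ) < 2 ^ (n - 1 - j) := by positivity
    nlinarith
  have h5 : ∑ j ∈ range n, (2 : ℤ) ^ (n - 1 - j) = 2 ^ n - 1 := by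
    rw [Finset.sum_range_reflect (fun j => (2 : ℤ) ^ j) n]
    have := mul_geom_sum (2 : ℤ) n
    linarith
  rw [Finset.sum_add_distrib, Finset.sum_add_distrib, ← Finset.sum_mul, h5] at h1
  unfold f
  nlinarith

lemma abs_aux {u v δ : ℤ} (h1 : δ ≤ |u + v|) (h2 : δ ≤ |u - v|) :
    |u| + |v| + δ ≤ |u + v| + |u - v| := by
  rcases abs_cases (u + v) with ⟨h3, h3'⟩ | ⟨h3, h3'⟩ <;>
  rcases abs_cases (u - v) with ⟨h4, h4'⟩ | ⟨h4, h4'⟩ <;>
  rcases abs_cases u with ⟨h5, h5'⟩ | ⟨h5, h5'⟩ <;>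
  rcases abs_cases v with ⟨h6, h6'⟩ | ⟨h6, h6'⟩ <;> omega

theorem main (n : ℕ) : ∀ {α : Type} (A : Finset α) (e : (Fin n → ZMod 2) → α → ℤ),
    (∀ a, e 0 a = 1) → (∀ x y a, e (x + y) a = e x a * e y a) →
    f n A.card ≤ ∑ x ∈ Finset.univ.erase 0, |∑ a ∈ A, e x a| := by
  classical
  induction n with
  | zero =>
    intro α A e _ _
    have h1 : f 0 A.card = 0 := by simp [f]
    rw [h1]
    exact Finset.sum_nonneg (fun _ _ => abs_nonneg _)
  | succ n ih =>
    intro α A e h0 hm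
    have hne : (Finset.univ.erase (0 : Fin (n + 1) → ZMod 2)).Nonempty := by
      refine ⟨fun _ => 1, Finset.mem_erase.2 ⟨?_, Finset.mem_univ _⟩⟩
      intro h
      have := congrFun h 0
      simp at this
    obtain ⟨x₀, hx₀, hmin⟩ := Finset.exists_min_image (Finset.univ.erase 0)
      (fun x => |∑ a ∈ A, e x a|) hne
    have hx₀ne : x₀ ≠ 0 := (Finset.mem_erase.1 hx₀).1
    obtain ⟨i, hi⟩ : ∃ i, x₀ i ≠ 0 := by
      by_contra hcon
      push Not at hcon
      exact hx₀ne (funext hcon)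
    have hi1 : x₀ i = 1 := by
      have : ∀ c : ZMod 2, c ≠ 0 → c = 1 := by decide
      exact this _ hi
    set δ : ℤ := |∑ a ∈ A, e x₀ a| with hδ
    let ι : (Fin n → ZMod 2) → (Fin (n + 1) → ZMod 2) := fun y => i.insertNth 0 y
    have hιi : ∀ y, ι y i = 0 := fun y => Fin.insertNth_apply_same _ _ _
    have hιk : ∀ y k, ι y (i.succAbove k) = y k := fun y k =>
      Fin.insertNth_apply_succAbove (α := fun _ => ZMod 2) i (0 : ZMod 2) y k
    have hι0 : ι 0 = 0 := by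
      funext j
      refine Fin.succAboveCases i ?_ ?_ j
      · exact hιi 0
      · intro k
        exact Fin.insertNth_apply_succAbove _ _ _ _
    have hιadd : ∀ y z, ι (y + z) = ι y + ι z := by
      intro y z
      funext j
      refine Fin.succAboveCases i ?_ ?_ j
      · rw [Pi.add_apply, hιi, hιi, hιi]; simp
      · intro k
        rw [Pi.add_apply, hιk, hιk, hιk, Pi.add_apply]
    have hιinj : ∀ y, ι y = 0 → y = 0 := by
      intro y hy
      funext k
      have := congrFun hy (i.succAbove k)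
      rw [hιk] at this
      exact this
    -- splitting sums
    have hsplit : ∀ g : (Fin (n + 1) → ZMod 2) → ℤ,
        ∑ x, g x = ∑ y, (g (ι y) + g (ι y + x₀)) := by
      intro g
      rw [← (Fin.insertNthEquiv (fun _ => ZMod 2) i).sum_comp, Fintype.sum_prod_type]
      have h2 : ∀ F : ZMod 2 → ℤ, ∑ c, F c = F 0 + F 1 := by
        intro F
        exact Fin.sum_univ_two F
      rw [h2, Finset.sum_add_distrib]
      congr 1
      have h3 := Equiv.sum_comp (Equiv.addRight (i.removeNth x₀ : Fin n → ZMod 2))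
        (fun y => g ((Fin.insertNthEquiv (fun _ => ZMod 2) i) (1, y)))
      rw [← h3]
      apply Finset.sum_congr rfl
      intro y _
      congr 1
      funext j
      refine Fin.succAboveCases i ?_ ?_ j
      · rw [Pi.add_apply, hιi, hi1]
        change (i.insertNth (1 : ZMod 2) _ : Fin (n + 1) → ZMod 2) i = 0 + 1
        rw [Fin.insertNth_apply_same]
        simp
      · intro k
        change (i.insertNth (1 : ZMod 2) (y + i.removeNth x₀) : Fin (n + 1) → ZMod 2)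
          (i.succAbove k) = _
        rw [Fin.insertNth_apply_succAbove, Pi.add_apply, Pi.add_apply, hιk]
        rfl
    -- the two halves of A
    set A₀ := A.filter (fun a => e x₀ a = 1) with hA₀
    set A₁ := A.filter (fun a => ¬ e x₀ a = 1) with hA₁
    have hsq : ∀ a, e x₀ a * e x₀ a = 1 := by
      intro a
      rw [← hm, ← h0 a]
      congr 1
      funext j
      have : ∀ c : ZMod 2, c + c = 0 := by decide
      exact this _
    have hpm : ∀ a, ¬ e x₀ a = 1 → e x₀ a = -1 := by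
      intro a ha
      have h4 := hsq a
      have h5 : (e x₀ a - 1) * (e x₀ a + 1) = 0 := by ring_nf; linarith
      rcases mul_eq_zero.1 h5 with h6 | h6
      · exact absurd (by linarith) ha
      · linarith
    have hFsum : ∀ x, ∑ a ∈ A, e x a = ∑ a ∈ A₀, e x a + ∑ a ∈ A₁, e x a := by
      intro x
      rw [hA₀, hA₁, Finset.sum_filter_add_sum_filter_not]
    have hFdiff : ∀ x, ∑ a ∈ A, e (x + x₀) a = ∑ a ∈ A₀, e x a - ∑ a ∈ A₁, e x a := by
      intro x
      rw [hFsum (x + x₀), sub_eq_add_neg, ← Finset.sum_neg_distrib]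
      congr 1
      · apply Finset.sum_congr rfl
        intro a ha
        rw [hm, (Finset.mem_filter.1 ha).2, mul_one]
      · apply Finset.sum_congr rfl
        intro a ha
        rw [hm, hpm a (Finset.mem_filter.1 ha).2]
        ring
    have hcard : A₀.card + A₁.card = A.card := by
      rw [hA₀, hA₁]
      exact Finset.card_filter_add_card_filter_not _
    have hδ2 : δ = |(A₀.card : ℤ) - A₁.card| := by
      rw [hδ]
      have h4 := hFdiff 0
      rw [zero_add] at h4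
      rw [h4]
      congr 2
      · rw [Finset.sum_congr rfl (fun a _ => h0 a)]; simp
      · rw [Finset.sum_congr rfl (fun a _ => h0 a)]; simp
    have ih0 := ih A₀ (fun y => e (ι y)) (fun a => by rw [hι0]; exact h0 a)
      (fun x y a => by rw [hιadd]; exact hm _ _ _)
    have ih1 := ih A₁ (fun y => e (ι y)) (fun a => by rw [hι0]; exact h0 a)
      (fun x y a => by rw [hιadd]; exact hm _ _ _)
    have htot := hsplit (fun x => |∑ a ∈ A, e x a|)
    have e1 : ∑ x, |∑ a ∈ A, e x a| = ∑ x ∈ Finset.univ.erase 0, |∑ a ∈ A, e x a|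
        + |∑ a ∈ A, e 0 a| := (Finset.sum_erase_add _ _ (Finset.mem_univ 0)).symm
    have e2 : ∑ y, (|∑ a ∈ A, e (ι y) a| + |∑ a ∈ A, e (ι y + x₀) a|)
        = ∑ y ∈ Finset.univ.erase 0, (|∑ a ∈ A, e (ι y) a| + |∑ a ∈ A, e (ι y + x₀) a|)
          + (|∑ a ∈ A, e 0 a| + δ) := by
      rw [← Finset.sum_erase_add _ _ (Finset.mem_univ (0 : Fin n → ZMod 2)), hι0, zero_add]
    have e3 : ∑ y ∈ Finset.univ.erase (0 : Fin n → ZMod 2),
        (|∑ a ∈ A₀, e (ι y) a| + |∑ a ∈ A₁, e (ι y) a| + δ) ≤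
        ∑ y ∈ Finset.univ.erase 0, (|∑ a ∈ A, e (ι y) a| + |∑ a ∈ A, e (ι y + x₀) a|) := by
      apply Finset.sum_le_sum
      intro y hy
      have hy0 : y ≠ 0 := (Finset.mem_erase.1 hy).1
      have m1 := hmin (ι y) (Finset.mem_erase.2 ⟨fun h => hy0 (hιinj y h), Finset.mem_univ _⟩)
      have m2 := hmin (ι y + x₀) (Finset.mem_erase.2 ⟨fun h => by
        have := congrFun h i
        rw [Pi.add_apply, hιi, hi1] at this
        simp at this, Finset.mem_univ _⟩)
      rw [hFsum (ι y), hFdiff (ι y)]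
      rw [hFsum (ι y)] at m1
      rw [hFdiff (ι y)] at m2
      exact abs_aux m1 m2
    have hc : ((Finset.univ.erase (0 : Fin n → ZMod 2)).card : ℤ) = 2 ^ n - 1 := by
      rw [Finset.card_erase_of_mem (Finset.mem_univ _), Finset.card_univ]
      have : Fintype.card (Fin n → ZMod 2) = 2 ^ n := by
        simp [ZMod.card]
      rw [this]
      have h1 : 1 ≤ 2 ^ n := Nat.one_le_two_pow
      push_cast [h1]
      ring
    rw [Finset.sum_add_distrib, Finset.sum_add_distrib, Finset.sum_const, nsmul_eq_mul, hc] at e3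
    have hk := f_key n A₀.card A₁.card
    rw [hcard, ← hδ2] at hk
    nlinarith

end Pool.Agent.Q162.Syl
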