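import Pool.Agent.Q162.Syl.Abs

/-!
Sylvester matrices and the passage to the abstract bound.
-/

namespace Pool.Agent.Q162.Syl

open Finset

/-- the block index -/
def idx (n : ℕ) : Fin (2 ^ n) ⊕ Fin (2 ^ n) ≃ Fin (2 ^ (n + 1)) :=
  finSumFinEquiv.trans (finCongr (by rw [pow_succ]; ring))

/-- the Sylvester matrices -/
def sylvester : (n : ℕ) → Matrix (Fin (2 ^ n)) (Fin (2 ^ n)) ℤ
  | 0 => fun _ _ => 1
  | n + 1 => Matrix.reindex (idx n) (idx n)
      (Matrix.fromBlocks (sylvester n) (sylvester n) (sylvester n) (-(sylvester n)))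

lemma syl_succ (n : ℕ) (k i : Fin (2 ^ n) ⊕ Fin (2 ^ n)) :
    sylvester (n + 1) (idx n k) (idx n i) =
      Matrix.fromBlocks (sylvester n) (sylvester n) (sylvester n) (-(sylvester n)) k i := by
  change Matrix.reindex (idx n) (idx n) _ (idx n k) (idx n i) = _
  rw [Matrix.reindex_apply, Matrix.submatrix_apply, Equiv.symm_apply_apply,
    Equiv.symm_apply_apply]

lemma exists_psi (n : ℕ) : ∃ ψ : (Fin n → ZMod 2) → Fin (2 ^ n), Function.Bijective ψ ∧
    (∀ k, sylvester n k (ψ 0) = 1) ∧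
    ∀ x y k, sylvester n k (ψ (x + y)) = sylvester n k (ψ x) * sylvester n k (ψ y) := by
  induction n with
  | zero =>
    refine ⟨fun _ => 0, ?_, fun _ => rfl, fun _ _ _ => rfl⟩
    constructor
    · intro x y _
      exact Subsingleton.elim x y
    · intro b
      refine ⟨0, ?_⟩
      have : b.val = 0 := by have := b.isLt; simp at this; omega
      exact Fin.ext this.symm
  | succ n ih =>
    obtain ⟨ψ, hb, h0, hm⟩ := ih
    have hz : ∀ c : ZMod 2, c ≠ 0 → c = 1 := by decide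
    let φ : (Fin (n + 1) → ZMod 2) → Fin (2 ^ n) ⊕ Fin (2 ^ n) := fun x =>
      if x 0 = 0 then Sum.inl (ψ (Fin.tail x)) else Sum.inr (ψ (Fin.tail x))
    have hφ0 : ∀ x, x 0 = 0 → φ x = Sum.inl (ψ (Fin.tail x)) := fun x hx => if_pos hx
    have hφ1 : ∀ x, x 0 ≠ 0 → φ x = Sum.inr (ψ (Fin.tail x)) := fun x hx => if_neg hx
    refine ⟨fun x => idx n (φ x), ?_, ?_, ?_⟩
    · rw [Fintype.bijective_iff_injective_and_card]
      constructor
      · intro x y hxy
        have h1 : φ x = φ y := (idx n).injective hxy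
        have h2 : x 0 = y 0 ∧ ψ (Fin.tail x) = ψ (Fin.tail y) := by
          by_cases hx : x 0 = 0
          · by_cases hy : y 0 = 0
            · rw [hφ0 x hx, hφ0 y hy] at h1
              exact ⟨by rw [hx, hy], Sum.inl_injective h1⟩
            · rw [hφ0 x hx, hφ1 y hy] at h1
              exact absurd h1 (by simp)
          · by_cases hy : y 0 = 0
            · rw [hφ1 x hx, hφ0 y hy] at h1
              exact absurd h1 (by simp)
            · rw [hφ1 x hx, hφ1 y hy] at h1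
              exact ⟨by rw [hz _ hx, hz _ hy], Sum.inr_injective h1⟩
        rw [← Fin.cons_self_tail x, ← Fin.cons_self_tail y, h2.1, hb.1 h2.2]
      · simp [ZMod.card]
    · intro k
      obtain ⟨k', rfl⟩ := (idx n).surjective k
      change sylvester (n + 1) (idx n k') (idx n (φ 0)) = 1
      rw [syl_succ, hφ0 0 rfl]
      have ht : Fin.tail (0 : Fin (n + 1) → ZMod 2) = 0 := rfl
      rw [ht]
      rcases k' with k' | k'
      · exact h0 k'
      · exact h0 k'
    · intro x y k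
      obtain ⟨k', rfl⟩ := (idx n).surjective k
      change sylvester (n + 1) (idx n k') (idx n (φ (x + y))) =
        sylvester (n + 1) (idx n k') (idx n (φ x)) * sylvester (n + 1) (idx n k') (idx n (φ y))
      rw [syl_succ, syl_succ, syl_succ]
      have ht : Fin.tail (x + y) = Fin.tail x + Fin.tail y := rfl
      have hxy : (x + y) 0 = x 0 + y 0 := rfl
      by_cases hx : x 0 = 0
      · by_cases hy : y 0 = 0
        · have hs : (x + y) 0 = 0 := by rw [hxy, hx, hy]; decide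
          rw [hφ0 _ hs, hφ0 _ hx, hφ0 _ hy, ht]
          rcases k' with k' | k'
          · exact hm _ _ k'
          · exact hm _ _ k'
        · have hs : (x + y) 0 ≠ 0 := by rw [hxy, hx, hz _ hy]; decide
          rw [hφ1 _ hs, hφ0 _ hx, hφ1 _ hy, ht]
          rcases k' with k' | k'
          · exact hm _ _ k'
          · change -(sylvester n k' _) = sylvester n k' _ * -(sylvester n k' _)
            rw [hm]; ring
      · by_cases hy : y 0 = 0
        · have hs : (x + y) 0 ≠ 0 := by rw [hxy, hy, hz _ hx]; decide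
          rw [hφ1 _ hs, hφ1 _ hx, hφ0 _ hy, ht]
          rcases k' with k' | k'
          · exact hm _ _ k'
          · change -(sylvester n k' _) = -(sylvester n k' _) * sylvester n k' _
            rw [hm]; ring
        · have hs : (x + y) 0 = 0 := by rw [hxy, hz _ hx, hz _ hy]; decide
          rw [hφ0 _ hs, hφ1 _ hx, hφ1 _ hy, ht]
          rcases k' with k' | k'
          · exact hm _ _ k'
          · change sylvester n k' _ = -(sylvester n k' _) * -(sylvester n k' _)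
            rw [hm]; ring

/-- the bound for an arbitrary set of rows -/
theorem rows_bound (n : ℕ) (A : Finset (Fin (2 ^ n))) :
    (A.card : ℤ) + f n A.card ≤ ∑ i, |∑ k ∈ A, sylvester n k i| := by
  obtain ⟨ψ, hb, h0, hm⟩ := exists_psi n
  rw [← hb.sum_comp (fun i => |∑ k ∈ A, sylvester n k i|),
    ← Finset.sum_erase_add _ _ (Finset.mem_univ (0 : Fin n → ZMod 2))]
  have h1 := main n A (fun x k => sylvester n k (ψ x)) h0 hm
  have h2 : |∑ k ∈ A, sylvester n k (ψ 0)| = A.card := by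
    rw [Finset.sum_congr rfl (fun k _ => h0 k)]
    simp
  rw [h2]
  linarith

/-- the number of rows -/
def m (n : ℕ) : ℕ := (2 ^ (n + 1) + 1) / 3

lemma pow_mod (n : ℕ) : (n % 2 = 0 → 2 ^ n % 3 = 1) ∧ (n % 2 = 1 → 2 ^ n % 3 = 2) := by
  induction n with
  | zero => simp
  | succ n ih =>
    rw [pow_succ]
    omega

lemma three_m (n : ℕ) : 3 * (m n : ℤ) = 2 ^ (n + 1) + (-1) ^ n := by
  have h := pow_mod (n + 1)
  have h2 : ((2 ^ (n + 1) : ℕ) : ℤ) = 2 ^ (n + 1) := by push_cast; ring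
  rw [← h2]
  unfold m
  rcases Nat.mod_two_eq_zero_or_one n with hn | hn
  · have : ((-1 : ℤ)) ^ n = 1 := (Nat.even_iff.2 hn).neg_one_pow
    rw [this]
    have := h.2 (by omega)
    omega
  · have : ((-1 : ℤ)) ^ n = -1 := (Nat.odd_iff.2 hn).neg_one_pow
    rw [this]
    have := h.1 (by omega)
    omega

lemma m_le {n : ℕ} : m n ≤ 2 ^ n := by
  unfold m
  have h1 : 1 ≤ 2 ^ n := Nat.one_le_two_pow
  rw [pow_succ]
  omega

lemma three_T {n j : ℕ} (hj : j ≤ n) : (2 : ℤ) ^ j - (-1) ^ j ≤ 3 * T (2 ^ j) (m n) := by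
  obtain ⟨k, hk⟩ := T_att (M := 2 ^ j) (by positivity) (m n)
  have h3 := three_m n
  have hz : (2 : ℤ) ^ (n + 1 - j) - 3 * k ≠ 0 := by
    intro h
    have h4 := pow_mod (n + 1 - j)
    have h5 : ((2 ^ (n + 1 - j) : ℕ) : ℤ) = 2 ^ (n + 1 - j) := by push_cast; ring
    rw [← h5] at h
    omega
  have h6 : 3 * ((m n : ℤ) - ((2 ^ j : ℕ) : ℤ) * k)
      = 2 ^ j * (2 ^ (n + 1 - j) - 3 * k) + (-1) ^ n := by
    have h7 : (2 : ℤ) ^ (n + 1) = 2 ^ j * 2 ^ (n + 1 - j) := by
      rw [← pow_add]; congr 1; omega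
    push_cast
    rw [mul_sub, h3, h7]
    ring
  have h8 : (2 : ℤ) ^ j - 1 ≤ 3 * T (2 ^ j) (m n) := by
    rw [hk]
    have h9 : 3 * |(m n : ℤ) - ((2 ^ j : ℕ) : ℤ) * k|
        = |2 ^ j * (2 ^ (n + 1 - j) - 3 * k) + (-1) ^ n| := by
      rw [← h6, abs_mul]
      norm_num
    rw [h9]
    have h10 : |(2 : ℤ) ^ j * (2 ^ (n + 1 - j) - 3 * k)| - |(-1 : ℤ) ^ n| ≤
        |2 ^ j * (2 ^ (n + 1 - j) - 3 * k) + (-1) ^ n| := by
      have := abs_sub_abs_le_abs_sub ((2 : ℤ) ^ j * (2 ^ (n + 1 - j) - 3 * k)) (-((-1) ^ n))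
      rw [abs_neg, sub_neg_eq_add] at this
      exact this
    have h11 : |(-1 : ℤ) ^ n| = 1 := by rw [abs_pow]; simp
    have h12 : (2 : ℤ) ^ j ≤ |(2 : ℤ) ^ j * (2 ^ (n + 1 - j) - 3 * k)| := by
      rw [abs_mul, abs_of_pos (by positivity : (0 : ℤ) < 2 ^ j)]
      have h13 : 1 ≤ |(2 : ℤ) ^ (n + 1 - j) - 3 * k| := Int.one_le_abs hz
      have h14 : (0 : ℤ) < 2 ^ j := by positivity
      nlinarith
    linarith
  have h2 : ((2 ^ j : ℕ) : ℤ) = 2 ^ j := by push_cast; ring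
  have h15 := pow_mod j
  rw [← h2] at h8 ⊢
  rcases Nat.mod_two_eq_zero_or_one j with hn | hn
  · have : ((-1 : ℤ)) ^ j = 1 := (Nat.even_iff.2 hn).neg_one_pow
    rw [this]
    exact h8
  · have : ((-1 : ℤ)) ^ j = -1 := (Nat.odd_iff.2 hn).neg_one_pow
    rw [this]
    have := h15.2 hn
    omega

lemma alt_sum (n : ℕ) : 3 * ∑ j ∈ range n, (2 : ℤ) ^ (n - 1 - j) * (-1) ^ j = 2 ^ n - (-1) ^ n := by
  induction n with
  | zero => simp
  | succ n ih =>
    rw [Finset.sum_range_succ]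
    have h1 : ∑ j ∈ range n, (2 : ℤ) ^ (n + 1 - 1 - j) * (-1) ^ j
        = 2 * ∑ j ∈ range n, (2 : ℤ) ^ (n - 1 - j) * (-1) ^ j := by
      rw [Finset.mul_sum]
      apply Finset.sum_congr rfl
      intro j hj
      have := Finset.mem_range.1 hj
      have h2 : n + 1 - 1 - j = (n - 1 - j) + 1 := by omega
      rw [h2, pow_succ]
      ring
    have h3 : n + 1 - 1 - n = 0 := by omega
    rw [h1, h3, pow_zero, one_mul, pow_succ, pow_succ]
    linarith

lemma f_m (n : ℕ) : 3 * n * 2 ^ n + 2 ^ n - (-1) ^ n ≤ 9 * f n (m n) := by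
  unfold f
  have h1 : ∑ j ∈ range n, (2 : ℤ) ^ (n - 1 - j) * (2 ^ (j + 1) - (-1) ^ (j + 1)) ≤
      ∑ j ∈ range n, (2 : ℤ) ^ (n - 1 - j) * (3 * T (2 ^ (j + 1)) (m n)) := by
    apply Finset.sum_le_sum
    intro j hj
    have := Finset.mem_range.1 hj
    exact mul_le_mul_of_nonneg_left (three_T (by omega)) (by positivity)
  have h2 : ∑ j ∈ range n, (2 : ℤ) ^ (n - 1 - j) * (2 ^ (j + 1) - (-1) ^ (j + 1))
      = n * 2 ^ n + ∑ j ∈ range n, (2 : ℤ) ^ (n - 1 - j) * (-1) ^ j := by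
    have h3 : ∑ j ∈ range n, (2 : ℤ) ^ n = n * 2 ^ n := by simp
    rw [← h3, ← Finset.sum_add_distrib]
    apply Finset.sum_congr rfl
    intro j hj
    have := Finset.mem_range.1 hj
    have h4 : (2 : ℤ) ^ n = 2 ^ (n - 1 - j) * 2 ^ (j + 1) := by
      rw [← pow_add]; congr 1; omega
    rw [h4, pow_succ (-1 : ℤ) j]
    ring
  have h5 : ∑ j ∈ range n, (2 : ℤ) ^ (n - 1 - j) * (3 * T (2 ^ (j + 1)) (m n))
      = 3 * ∑ j ∈ range n, (2 : ℤ) ^ (n - 1 - j) * T (2 ^ (j + 1)) (m n) := by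
    rw [Finset.mul_sum]
    apply Finset.sum_congr rfl
    intro j _
    ring
  have h6 := alt_sum n
  rw [h2, h5] at h1
  linarith

/-- the bound for `m n` rows -/
theorem main_bound (n : ℕ) (A : Finset (Fin (2 ^ n))) (hA : A.card = m n) :
    (3 * n + 7) * 2 ^ n + 2 * (-1) ^ n ≤ 9 * ∑ i, |∑ k ∈ A, sylvester n k i| := by
  have h1 := rows_bound n A
  have h2 := f_m n
  have h3 := three_m n
  rw [hA] at h1
  rw [pow_succ] at h3
  linarith

end Pool.Agent.Q162.Syl
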